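import Pool.Agent.Lib.MP_1a91b9_ntT3.EF.Tower

/-!
# `NoCube3` in Galois extensions of degree prime to `3`

The Euler factors of `y^2 + y = x^3` (`S4.LSeries_E`, `S4.psi_place`) need only that the valuation
of `3` is not a cube at the places above `3`. This goes up every Galois extension whose degree is
not divisible by `3`.
-/

set_option autoImplicit false

namespace Pool.Agent.Lib.MP_1a91b9_ntT.D7

open NumberField IsDedekindDomain WithZero Pool.Agent.Lib.MP_1a91b9_nt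
open Pool.Agent.Lib.MP_1a91b9_ntT.S4

theorem cube_of_coprime {Γ : Type*} [LinearOrderedCommGroupWithZero Γ] (x γ : Γ) (hx : x ≠ 0)
    (e : ℕ) (he : e.Coprime 3) (h : γ ^ 3 = x ^ e) : ∃ δ : Γ, δ ^ 3 = x := by
  have hγ : γ ≠ 0 := by
    rintro rfl
    rw [zero_pow (by norm_num)] at h
    exact pow_ne_zero e hx h.symm
  have hb : (e : ℤ) * Nat.gcdA e 3 + (3 : ℕ) * Nat.gcdB e 3 = 1 := by
    have := Nat.gcd_eq_gcd_ab e 3
    rw [he.gcd_eq_one] at this
    push_cast at this ⊢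
    linarith
  refine ⟨γ ^ (Nat.gcdA e 3) * x ^ (Nat.gcdB e 3), ?_⟩
  have h' : γ ^ (3 : ℤ) = x ^ (e : ℤ) := by
    rw [zpow_natCast, ← h]
    norm_cast
  have e1 : (γ ^ (Nat.gcdA e 3) * x ^ (Nat.gcdB e 3)) ^ (3 : ℕ) =
      (γ ^ (3 : ℤ)) ^ (Nat.gcdA e 3) * x ^ (3 * Nat.gcdB e 3) := by
    rw [mul_pow, ← zpow_natCast, ← zpow_mul, ← zpow_natCast, ← zpow_mul, ← zpow_mul, mul_comm 3,
      mul_comm 3]
    norm_num
  rw [e1, h', ← zpow_mul, ← zpow_add₀ hx]
  push_cast at hb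
  rw [hb, zpow_one]

/-- `NoCube3` goes up Galois extensions of degree prime to `3`. -/
theorem noCube3_up {N N' : Type*} [Field N] [NumberField N] [Field N'] [NumberField N']
    [Algebra N N'] [IsGalois N N'] (hd : ¬ 3 ∣ Module.finrank N N') (h : NoCube3 N) :
    NoCube3 N' := by
  intro w' hw' γ hγ
  set w := MP_1a91b9_ntT3.EF.bel N w' with hw
  have h3 : (3 : 𝓞 N) ∈ w.asIdeal := by
    change algebraMap (𝓞 N) (𝓞 N') 3 ∈ w'.asIdeal
    rw [map_ofNat]
    exact hw'
  have hval := MP_1a91b9_ntT3.EF.val_bel (F := N) w' 3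
  rw [map_ofNat (algebraMap N N') 3] at hval
  have hdvd := (MP_1a91b9_ntT3.EF.ef_dvd w w' rfl).2
  have hcop : (w.asIdeal.ramificationIdx' w'.asIdeal).Coprime 3 := by
    rw [Nat.coprime_comm, Nat.Prime.coprime_iff_not_dvd Nat.prime_three]
    exact fun h4 => hd (h4.trans hdvd)
  obtain ⟨δ, hδ⟩ := cube_of_coprime (w.valuation N 3) γ
    ((Valuation.ne_zero_iff _).mpr (by norm_num)) _ hcop (by rw [hγ, hval])
  exact h w h3 δ hδ

/-- `NoCube3` for the Galois extensions of `K` of degree prime to `3`. -/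
theorem noCube3_of_galois (F : Type*) [Field F] [NumberField F] [Algebra K F] [IsGalois K F]
    (hd : ¬ 3 ∣ Module.finrank K F) : NoCube3 F := noCube3_up hd noCube3_K

end Pool.Agent.Lib.MP_1a91b9_ntT.D7
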